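import Mathlib

set_option autoImplicit false

namespace Pool.Agent.H.MP_e5baee_al

open Matrix Finset

variable {ι : Type} [Fintype ι] [DecidableEq ι]

def mv (c : ι → ℤ) (j l : ι) (M : Matrix ι ι ℤ) : Matrix ι ι ℤ :=
  Matrix.of fun a b => M a b + 2 * c a * (M j b - M l b)

omit [DecidableEq ι] in
lemma mv_mul (c : ι → ℤ) (j l : ι) (M N : Matrix ι ι ℤ) : mv c j l M * N = mv c j l (M * N) := by
  ext a b
  simp only [mv, mul_apply, of_apply, ← sum_sub_distrib, mul_sum, ← sum_add_distrib]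
  exact sum_congr rfl fun _ _ => by ring

omit [Fintype ι] [DecidableEq ι] in
lemma mv_add (c c' : ι → ℤ) (j l : ι) (M : Matrix ι ι ℤ) (h : c' j = c' l) :
    mv c j l (mv c' j l M) = mv (c + c') j l M := by
  ext a b
  simp only [mv, of_apply, h, Pi.add_apply]
  ring

omit [Fintype ι] [DecidableEq ι] in
lemma mv_zero (j l : ι) (M : Matrix ι ι ℤ) : mv 0 j l M = M := by
  ext a b
  simp [mv]

omit [Fintype ι] [DecidableEq ι] in
lemma mv_symm (c : ι → ℤ) (j l : ι) (M : Matrix ι ι ℤ) : mv (-c) j l M = mv c l j M := by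
  ext a b
  simp only [mv, of_apply, Pi.neg_apply]
  ring

omit [Fintype ι] in
lemma mv_refl {i j : ι} (h : i ≠ j) (M : Matrix ι ι ℤ) :
    mv (Pi.single i 1) j i (mv (Pi.single i 1) j i M) = M := by
  ext a b
  by_cases e : a = i
  · subst e
    simp [mv, h.symm]
    ring
  · simp [mv, e]

def Cl (Q : Matrix ι ι ℤ → Prop) : Prop :=
  ∀ i j M, i ≠ j → Q M → Q (mv (Pi.single i 1) j i M)

def Bs (Q : Matrix ι ι ℤ → Prop) (j l : ι) : AddSubgroup (ι → ℤ) where
  carrier := {c | c j = c l ∧ (∀ M, Q M → Q (mv c j l M)) ∧ ∀ M, Q M → Q (mv c l j M)}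
  zero_mem' := ⟨rfl, fun M h => by rwa [mv_zero], fun M h => by rwa [mv_zero]⟩
  add_mem' := by
    rintro a b ⟨h1, h2, h3⟩ ⟨h4, h5, h6⟩
    refine ⟨by simp [h1, h4], fun M h => ?_, fun M h => ?_⟩
    · rw [← mv_add _ _ _ _ _ h4]; exact h2 _ (h5 _ h)
    · rw [← mv_add _ _ _ _ _ h4.symm]; exact h3 _ (h6 _ h)
  neg_mem' := by
    rintro a ⟨h1, h2, h3⟩
    exact ⟨by simp [h1], fun M h => by rw [mv_symm]; exact h3 _ h,
      fun M h => by rw [mv_symm]; exact h2 _ h⟩

omit [Fintype ι] in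
lemma gen1 {Q : Matrix ι ι ℤ → Prop} (hQ : Cl Q) {i j l : ι} (h1 : i ≠ j) (h2 : i ≠ l)
    (M : Matrix ι ι ℤ) (h : Q M) : Q (mv (Pi.single i 1) j l M) := by
  have := hQ i j _ h1 (hQ i l M h2 h)
  convert this using 1
  ext a b
  by_cases e : a = i
  · subst e
    simp [mv, h1.symm]
    ring
  · simp [mv, e]

lemma gen2 {Q : Matrix ι ι ℤ → Prop} (hQ : Cl Q) {j l : ι} (c : ι → ℤ) (h1 : c j = 0)
    (h2 : c l = 0) : c ∈ Bs Q j l := by
  rw [← Finset.univ_sum_single c]
  refine sum_mem fun i _ => ?_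
  by_cases e : c i = 0
  · rw [e, Pi.single_zero]; exact zero_mem _
  · have e1 : i ≠ j := fun h => e (h ▸ h1)
    have e2 : i ≠ l := fun h => e (h ▸ h2)
    have : (Pi.single i (c i) : ι → ℤ) = c i • Pi.single i 1 := by
      rw [← Pi.single_smul, smul_eq_mul, mul_one]
    rw [this]
    exact (Bs Q j l).zsmul_mem
      ⟨by simp [e1.symm, e2.symm], gen1 hQ e1 e2, gen1 hQ e2 e1⟩ _

lemma gen3 {Q : Matrix ι ι ℤ → Prop} (hQ : Cl Q) {j l : ι} (hjl : j ≠ l)
    (M : Matrix ι ι ℤ) (h : Q M) : Q (mv 1 j l M) := by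
  have := hQ j l _ hjl (hQ l j _ hjl.symm ((gen2 hQ (j := j) (l := l)
    (1 - Pi.single j 1 - Pi.single l 1) (by simp [hjl]) (by simp [hjl.symm])).2.1 M h))
  convert this using 1
  ext a b
  by_cases e : a = j
  · subst e
    simp [mv, hjl, hjl.symm]
    ring
  · by_cases e' : a = l
    · subst e'
      simp [mv, hjl, hjl.symm]
    · simp [mv, e, e']

lemma gen {Q : Matrix ι ι ℤ → Prop} (hQ : Cl Q) {j l : ι} (hjl : j ≠ l) (c : ι → ℤ)
    (hc : c j = c l) (M : Matrix ι ι ℤ) (h : Q (mv c j l M)) : Q M := by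
  have h1 : c ∈ Bs Q j l := by
    have : c = (c - c j • 1) + c j • 1 := by simp
    rw [this]
    exact add_mem (gen2 hQ _ (by simp) (by simp [hc]))
      ((Bs Q j l).zsmul_mem ⟨rfl, gen3 hQ hjl, gen3 hQ hjl.symm⟩ _)
  have := (neg_mem h1).2.1 _ h
  rwa [mv_add _ _ _ _ _ hc, neg_add_cancel, mv_zero] at this

def Good (M : Matrix ι ι ℤ) : Prop :=
  (∃ N : Matrix ι ι ℤ, N * M = 1) ∧ (∀ a, ∑ b, M a b = 1) ∧
    ∀ a b, 2 ∣ M a b - (1 : Matrix ι ι ℤ) a b

lemma Good.mv {M : Matrix ι ι ℤ} (h : Good M) (c c' : ι → ℤ) (j l : ι)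
    (e : mv c' j l (mv c j l M) = M) : Good (mv c j l M) := by
  obtain ⟨⟨N, h1⟩, h2, h3⟩ := h
  refine ⟨⟨N * MP_e5baee_al.mv c' j l 1, by rw [Matrix.mul_assoc, mv_mul, Matrix.one_mul, e, h1]⟩,
    fun a => ?_, fun a b => ?_⟩
  · simp only [MP_e5baee_al.mv, of_apply, sum_add_distrib, ← mul_sum, sum_sub_distrib, h2]
    ring
  · have := dvd_add (h3 a b) (dvd_mul_right 2 (c a * (M j b - M l b)))
    have e : MP_e5baee_al.mv c j l M a b - (1 : Matrix ι ι ℤ) a b =
        M a b - (1 : Matrix ι ι ℤ) a b + 2 * (c a * (M j b - M l b)) := by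
      simp only [MP_e5baee_al.mv, of_apply]
      ring
    rwa [e]

lemma Good.mv' {M : Matrix ι ι ℤ} (h : Good M) (c : ι → ℤ) (j l : ι) (hc : c j = c l) :
    Good (MP_e5baee_al.mv c j l M) :=
  h.mv c (-c) j l (by rw [mv_add _ _ _ _ _ hc, neg_add_cancel, mv_zero])

def Std (l : ι) (U : Finset ι) (M : Matrix ι ι ℤ) : Prop :=
  ∀ k, k ∉ U → k ≠ l → ∀ a, M a k = (1 : Matrix ι ι ℤ) a k

omit [Fintype ι] in
lemma Std.mv {l : ι} {U : Finset ι} {M : Matrix ι ι ℤ} (h : Std l U M) (c : ι → ℤ) {i j : ι}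
    (hi : i ∈ U ∨ i = l) (hj : j ∈ U ∨ j = l) : Std l U (mv c i j M) := by
  intro k h1 h2 a
  have e1 : i ≠ k := by rintro rfl; tauto
  have e2 : j ≠ k := by rintro rfl; tauto
  simp [MP_e5baee_al.mv, h k h1 h2, one_apply_ne e1, one_apply_ne e2]

lemma fin1 {Q : Matrix ι ι ℤ → Prop} (hQ : Cl Q) {l k : ι} {U : Finset ι} (hkl : k ≠ l)
    (ih : ∀ M, Good M → Std l U M → Q M) (M : Matrix ι ι ℤ) (h1 : Good M)
    (h2 : Std l (insert k U) M) (h3 : M k k - M l k = 1) : Q M := by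
  choose c hc using fun a => h1.2.2 a k
  have e : (-c) k = (-c) l := by
    have e1 := hc k
    have e2 := hc l
    rw [one_apply_eq] at e1
    rw [one_apply_ne hkl.symm] at e2
    simp only [Pi.neg_apply]
    omega
  refine gen hQ hkl (-c) e M (ih _ (h1.mv' _ _ _ e) fun s hs hl a => ?_)
  by_cases es : s = k
  · subst es
    have := hc a
    simp only [mv, of_apply, h3, Pi.neg_apply]
    omega
  · exact h2.mv _ (Or.inl (mem_insert_self _ _)) (Or.inr rfl) s (by simp [hs, es]) hl a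

lemma fin2 {Q : Matrix ι ι ℤ → Prop} (hQ : Cl Q) {l k : ι} {U : Finset ι} (hkl : k ≠ l)
    (ih : ∀ M, Good M → Std l U M → Q M) (M : Matrix ι ι ℤ) (h1 : Good M)
    (h2 : Std l (insert k U) M) (h3 : ∀ j ∈ U, j ≠ k → M j k - M l k = 0) : Q M := by
  obtain ⟨N, hN⟩ := h1.1
  have s1 : ∀ a, ∑ b, N a b = 1 := fun a => by
    calc ∑ b, N a b = ∑ b, ∑ c, N a b * M b c := by simp only [← mul_sum, h1.2.1, mul_one]
      _ = ∑ c, (N * M) a c := by rw [sum_comm]; rfl
      _ = 1 := by simp [hN, one_apply]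
  have s2 : ∀ a s, s ∉ insert k U → s ≠ l → N a s = (1 : Matrix ι ι ℤ) a s := fun a s hs hl => by
    rw [← hN, mul_apply]
    simp [h2 s hs hl, one_apply]
  have s3 : ∑ i, (N k i - N l i) * (M i k - M l k) = 1 := by
    have a1 := congrFun (congrFun hN k) k
    have a2 := congrFun (congrFun hN l) k
    rw [one_apply_eq, mul_apply] at a1
    rw [one_apply_ne hkl.symm, mul_apply] at a2
    simp only [sub_mul, mul_sub, sum_sub_distrib, a1, a2, ← sum_mul, s1]
    ring
  rw [sum_eq_single k ?_ (by simp)] at s3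
  · rcases Int.eq_one_or_neg_one_of_mul_eq_one' s3 with h | h
    · exact fin1 hQ hkl ih M h1 h2 h.2
    · rw [← mv_refl hkl M]
      refine hQ _ _ _ hkl (fin1 hQ hkl ih _ (h1.mv _ _ _ _ (mv_refl hkl M))
        (h2.mv _ (Or.inr rfl) (Or.inl (mem_insert_self _ _))) ?_)
      have := h.2
      simp [mv, hkl.symm]
      omega
  · intro i _ hi
    by_cases e1 : i = l
    · simp [e1]
    by_cases e2 : i ∈ U
    · rw [h3 i e2 hi, mul_zero]
    · rw [s2 k i (by simp [hi, e2]) e1, s2 l i (by simp [hi, e2]) e1, one_apply_ne (Ne.symm hi),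
        one_apply_ne (Ne.symm e1), sub_self, zero_mul]

omit [Fintype ι] in
lemma red {l k a b : ι} {V : Finset ι} (M : Matrix ι ι ℤ) (ha : a ∈ V) (hal : a ≠ l)
    (h0 : M b k - M l k ≠ 0) (h1 : (M b k - M l k).natAbs < (M a k - M l k).natAbs) :
    ∃ t : ℤ, ∑ i ∈ V, (mv (Pi.single a t) b l M i k - mv (Pi.single a t) b l M l k).natAbs <
      ∑ i ∈ V, (M i k - M l k).natAbs := by
  obtain ⟨t, ht⟩ : ∃ t : ℤ, (M a k + 2 * t * (M b k - M l k) - M l k).natAbs <
      (M a k - M l k).natAbs := by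
    by_contra h
    push Not at h
    have e1 := h 1
    have e2 := h (-1)
    omega
  refine ⟨t, sum_lt_sum (fun i _ => ?_) ⟨a, ha, ?_⟩⟩
  · by_cases e : i = a
    · subst e
      simpa [mv, hal.symm] using ht.le
    · simp [mv, e, hal.symm]
  · simpa [mv, hal.symm] using ht

theorem main {Q : Matrix ι ι ℤ → Prop} (hQ : Cl Q) (h1 : Q 1) (l : ι) (U : Finset ι) :
    l ∉ U → ∀ M, Good M → Std l U M → Q M := by
  induction U using Finset.induction_on with
  | empty =>
    intro _ M hM hs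
    convert h1
    ext a b
    by_cases e : b = l
    · subst e
      have e1 := hM.2.1 a
      have e2 : ∑ c, (1 : Matrix ι ι ℤ) a c = 1 := by simp [one_apply]
      rw [← add_sum_erase _ _ (mem_univ b)] at e1 e2
      rw [sum_congr rfl fun c hc => hs c (by simp) (ne_of_mem_erase hc) a] at e1
      exact add_right_cancel (e1.trans e2.symm)
    · exact hs b (by simp) e a
  | insert k U hk ih =>
    intro hl
    have hkl : k ≠ l := fun h => hl (h ▸ mem_insert_self _ _)
    have hlU : l ∉ U := fun h => hl (mem_insert_of_mem h)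
    replace ih := ih hlU
    intro M
    induction hm : ∑ i ∈ insert k U, (M i k - M l k).natAbs using Nat.strong_induction_on
      generalizing M with
    | _ m ih2 =>
      intro hM hs
      by_cases h : ∀ j ∈ U, j ≠ k → M j k - M l k = 0
      · exact fin2 hQ hkl ih M hM hs h
      push Not at h
      obtain ⟨j, hj, hjk, h0⟩ := h
      have hjl : j ≠ l := fun h => hlU (h ▸ hj)
      have p1 := hM.2.2 k k
      have p2 := hM.2.2 j k
      have p3 := hM.2.2 l k
      rw [one_apply_eq] at p1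
      rw [one_apply_ne hjk] at p2
      rw [one_apply_ne hkl.symm] at p3
      have key : ∀ a b, a ∈ insert k U → b ∈ insert k U → a ≠ b → M b k - M l k ≠ 0 →
          (M b k - M l k).natAbs < (M a k - M l k).natAbs → Q M := by
        intro a b ha hb hab e0 e1
        have hal : a ≠ l := fun h => hl (h ▸ ha)
        have hbl : b ≠ l := fun h => hl (h ▸ hb)
        obtain ⟨t, ht⟩ := red M ha hal e0 e1
        have e : (Pi.single a t : ι → ℤ) b = (Pi.single a t : ι → ℤ) l := by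
          simp [hab.symm, hal.symm]
        exact gen hQ hbl _ e M (ih2 _ (hm ▸ ht) _ rfl (hM.mv' _ _ _ e)
          (hs.mv _ (Or.inl hb) (Or.inr rfl)))
      rcases lt_trichotomy (M j k - M l k).natAbs (M k k - M l k).natAbs with h | h | h
      · exact key k j (mem_insert_self _ _) (mem_insert_of_mem hj) hjk.symm h0 h
      · omega
      · exact key j k (mem_insert_of_mem hj) (mem_insert_self _ _) hjk (by omega) h

end Pool.Agent.H.MP_e5baee_al
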